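import Mathlib

/-!
# Sums of the Moebius function over integers coprime to `q`

`μ(k) 1_{(k,q)=1}` is the convolution of `μ` with the indicator function of the integers all of whose
prime factors divide `q`.
-/

set_option autoImplicit false

namespace Pool.Agent.V11300.DE

open Finset ArithmeticFunction

/-- all prime factors of `a` divide `q` -/
def SM (q a : ℕ) : Prop := a.primeFactors ⊆ q.primeFactors

instance (q a : ℕ) : Decidable (SM q a) := by unfold SM; infer_instance

lemma SM_one (q : ℕ) : SM q 1 := by simp [SM]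

lemma SM_mul {q a b : ℕ} (ha : a ≠ 0) (hb : b ≠ 0) : SM q (a * b) ↔ SM q a ∧ SM q b := by
  unfold SM
  rw [Nat.primeFactors_mul ha hb, union_subset_iff]

/-- the indicator function -/
def IS (q : ℕ) : ArithmeticFunction ℤ := ⟨fun a => if a = 0 then 0 else if SM q a then 1 else 0, by simp⟩

lemma IS_apply {q a : ℕ} (ha : a ≠ 0) : IS q a = if SM q a then 1 else 0 := by
  change (if a = 0 then (0 : ℤ) else if SM q a then 1 else 0) = _
  rw [if_neg ha]

lemma IS_mult (q : ℕ) : (IS q).IsMultiplicative := by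
  rw [IsMultiplicative.iff_ne_zero]
  refine ⟨by rw [IS_apply one_ne_zero, if_pos (SM_one q)], ?_⟩
  intro m n hm hn _
  rw [IS_apply (mul_ne_zero hm hn), IS_apply hm, IS_apply hn]
  by_cases h1 : SM q m <;> by_cases h2 : SM q n <;> simp [h1, h2, SM_mul hm hn]

/-- `μ` on the integers coprime to `q` -/
def MC (q : ℕ) : ArithmeticFunction ℤ := ⟨fun a => if Nat.Coprime a q then moebius a else 0, by simp⟩

lemma MC_apply (q a : ℕ) : MC q a = if Nat.Coprime a q then moebius a else 0 := rfl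

lemma MC_mult (q : ℕ) : (MC q).IsMultiplicative := by
  rw [IsMultiplicative.iff_ne_zero]
  refine ⟨by rw [MC_apply]; simp, ?_⟩
  intro m n hm hn h
  rw [MC_apply, MC_apply, MC_apply, isMultiplicative_moebius.map_mul_of_coprime h]
  by_cases h1 : Nat.Coprime m q
  · by_cases h2 : Nat.Coprime n q
    · rw [if_pos h1, if_pos h2, if_pos (Nat.coprime_mul_iff_left.2 ⟨h1, h2⟩)]
    · rw [if_neg h2, mul_zero, if_neg (fun h => h2 (Nat.coprime_mul_iff_left.1 h).2)]
  · rw [if_neg h1, zero_mul, if_neg (fun h => h1 (Nat.coprime_mul_iff_left.1 h).1)]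

lemma SM_pow {q p j : ℕ} (hp : p.Prime) (hq : q ≠ 0) (hj : j ≠ 0) : SM q (p ^ j) ↔ p ∣ q := by
  unfold SM
  rw [Nat.primeFactors_prime_pow hj hp, singleton_subset_iff, Nat.mem_primeFactors]
  exact ⟨fun h => h.2.1, fun h => ⟨hp, h, hq⟩⟩

theorem IS_mul_mu (q : ℕ) (hq : q ≠ 0) : IS q * moebius = MC q := by
  rw [((IS_mult q).mul isMultiplicative_moebius).eq_iff_eq_on_prime_powers _ _ (MC_mult q)]
  intro p i hp
  rw [ArithmeticFunction.mul_apply, Nat.sum_divisorsAntidiagonal (fun a b => IS q a * moebius b),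
    Nat.divisors_prime_pow hp, sum_map]
  simp only [Function.Embedding.coeFn_mk]
  have h0 : ∀ j ∈ range (i + 1), IS q (p ^ j) * moebius (p ^ i / p ^ j) =
      IS q (p ^ j) * moebius (p ^ (i - j)) := by
    intro j hj
    rw [mem_range] at hj
    rw [Nat.pow_div (by omega) hp.pos]
  rw [sum_congr rfl h0]
  rcases Nat.eq_zero_or_pos i with rfl | hi
  · simp [MC_apply, IS_apply, SM_one]
  have hterm : ∀ j ∈ range (i + 1), j ≠ i → j ≠ i - 1 → IS q (p ^ j) * moebius (p ^ (i - j)) = 0 := by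
    intro j hj h1 h2
    rw [mem_range] at hj
    have h3 : 2 ≤ i - j := by omega
    rw [moebius_apply_prime_pow hp (by omega), if_neg (by omega), mul_zero]
  have hsum : ∑ j ∈ range (i + 1), IS q (p ^ j) * moebius (p ^ (i - j)) =
      IS q (p ^ (i - 1)) * moebius (p ^ (i - (i - 1))) + IS q (p ^ i) * moebius (p ^ (i - i)) := by
    rw [← sum_pair (f := fun j => IS q (p ^ j) * moebius (p ^ (i - j))) (by omega : i - 1 ≠ i)]
    symm
    apply sum_subset
    · intro j hj
      rw [mem_insert, mem_singleton] at hj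
      rw [mem_range]
      omega
    · intro j hj h
      rw [mem_insert, mem_singleton, not_or] at h
      exact hterm j hj h.2 h.1
  rw [hsum]
  have e1 : i - (i - 1) = 1 := by omega
  rw [e1, pow_one, moebius_apply_prime hp, Nat.sub_self, pow_zero, moebius_apply_one, mul_one,
    IS_apply (pow_ne_zero _ hp.ne_zero), IS_apply (pow_ne_zero _ hp.ne_zero), MC_apply]
  have hS : SM q (p ^ i) ↔ p ∣ q := SM_pow hp hq hi.ne'
  by_cases hpq : p ∣ q
  · have h1 : SM q (p ^ (i - 1)) := by
      rcases Nat.eq_zero_or_pos (i - 1) with h | h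
      · rw [h, pow_zero]; exact SM_one q
      · exact (SM_pow hp hq h.ne').2 hpq
    have h2 : ¬ Nat.Coprime (p ^ i) q := by
      rw [Nat.coprime_pow_left_iff hi]
      exact fun h => (Nat.Prime.coprime_iff_not_dvd hp).1 h hpq
    rw [if_pos h1, if_pos (hS.2 hpq), if_neg h2]
    norm_num
  · have h2 : Nat.Coprime (p ^ i) q := by
      rw [Nat.coprime_pow_left_iff hi]
      exact (Nat.Prime.coprime_iff_not_dvd hp).2 hpq
    rw [if_neg (fun h => hpq (hS.1 h)), if_pos h2, add_zero]
    rcases Nat.eq_zero_or_pos (i - 1) with h | h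
    · have : i = 1 := by omega
      subst this
      simp [SM_one, moebius_apply_prime hp]
    · have h1 : ¬ SM q (p ^ (i - 1)) := by
        rw [SM_pow hp hq h.ne']; exact hpq
      rw [if_neg h1, moebius_apply_prime_pow hp (by omega), if_neg (by omega)]
      simp

/-- the identity, pointwise -/
theorem mu_cop (q k : ℕ) (hq : q ≠ 0) :
    (if Nat.Coprime k q then moebius k else 0) =
      ∑ a ∈ k.divisors, if SM q a then moebius (k / a) else 0 := by
  have h : (IS q * moebius) k = MC q k := by rw [IS_mul_mu q hq]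
  rw [MC_apply] at h
  rw [← h, ArithmeticFunction.mul_apply, Nat.sum_divisorsAntidiagonal (fun a b => IS q a * moebius b)]
  apply sum_congr rfl
  intro a ha
  have ha0 : a ≠ 0 := by
    rintro rfl
    exact absurd (Nat.mem_divisors.1 ha) (by simp)
  rw [IS_apply ha0]
  split_ifs <;> simp

/-- reorganisation of a sum over divisors -/
theorem sum_div_swap {R : Type*} [AddCommMonoid R] (K : ℕ) (F : ℕ → ℕ → R) :
    ∑ k ∈ Icc 1 K, ∑ a ∈ k.divisors, F a (k / a) = ∑ a ∈ Icc 1 K, ∑ b ∈ Icc 1 (K / a), F a b := by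
  rw [sum_sigma', sum_sigma']
  refine sum_bij' (fun x _ => ⟨x.2, x.1 / x.2⟩) (fun y _ => ⟨y.1 * y.2, y.1⟩) ?_ ?_ ?_ ?_ ?_
  · rintro ⟨k, a⟩ h
    simp only [mem_sigma, mem_Icc, Nat.mem_divisors] at h ⊢
    obtain ⟨⟨h1, h2⟩, ⟨c, hc⟩, h3⟩ := h
    have ha : 0 < a := Nat.pos_of_ne_zero (by rintro rfl; simp at hc; omega)
    have hc0 : 0 < c := Nat.pos_of_ne_zero (by rintro rfl; simp at hc; omega)
    subst hc
    rw [Nat.mul_div_cancel_left _ ha]
    refine ⟨⟨ha, le_trans (Nat.le_mul_of_pos_right a hc0) h2⟩, hc0, ?_⟩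
    rw [Nat.le_div_iff_mul_le ha, mul_comm]
    exact h2
  · rintro ⟨a, b⟩ h
    simp only [mem_sigma, mem_Icc, Nat.mem_divisors] at h ⊢
    obtain ⟨⟨h1, h2⟩, h3, h4⟩ := h
    rw [Nat.le_div_iff_mul_le (by omega), mul_comm] at h4
    exact ⟨⟨Nat.mul_pos h1 h3, h4⟩, Dvd.intro _ rfl, (Nat.mul_pos h1 h3).ne'⟩
  · rintro ⟨k, a⟩ h
    simp only [mem_sigma, mem_Icc, Nat.mem_divisors] at h
    simp only [Sigma.mk.injEq, heq_eq_eq, and_true]
    exact Nat.mul_div_cancel' h.2.1
  · rintro ⟨a, b⟩ h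
    simp only [mem_sigma, mem_Icc] at h
    simp only [Sigma.mk.injEq, heq_eq_eq, true_and]
    exact Nat.mul_div_cancel_left _ (by omega)
  · rintro ⟨k, a⟩ _
    rfl

end Pool.Agent.V11300.DE
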