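import Mathlib
import Pool.Agent.V11300.DE.Cop

/-! Rankin's bound for the integers all of whose prime factors divide `q`. -/

set_option autoImplicit false

namespace Pool.Agent.V11300.DE

open Finset ArithmeticFunction

/-- `n ↦ n^{-1/2}` -/
noncomputable def rh : ℕ →* ℝ where
  toFun n := (n : ℝ) ^ (-(1 / 2) : ℝ)
  map_one' := by simp
  map_mul' m n := by
    rw [Nat.cast_mul, Real.mul_rpow (Nat.cast_nonneg _) (Nat.cast_nonneg _)]

lemma rh_apply (n : ℕ) : rh n = (n : ℝ) ^ (-(1 / 2) : ℝ) := rfl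

lemma rh_nonneg (n : ℕ) : 0 ≤ rh n := by rw [rh_apply]; positivity

lemma rh_prime {p : ℕ} (hp : 2 ≤ p) : rh p ≤ 3 / 4 := by
  rw [rh_apply]
  have h1 : (p : ℝ) ^ (-(1 / 2) : ℝ) ≤ (2 : ℝ) ^ (-(1 / 2) : ℝ) := by
    apply Real.rpow_le_rpow_of_nonpos (by norm_num) (by exact_mod_cast hp) (by norm_num)
  refine h1.trans ?_
  rw [Real.rpow_neg (by norm_num), ← Real.sqrt_eq_rpow]
  rw [inv_le_comm₀ (by positivity) (by norm_num)]
  apply Real.le_sqrt_of_sq_le
  norm_num

theorem rankin (q K : ℕ) : ∑ a ∈ (Icc 1 K).filter (SM q), rh a ≤ 4 ^ q.primeFactors.card := by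
  have hlt : ∀ {p : ℕ}, p.Prime → ‖rh p‖ < 1 := by
    intro p hp
    rw [Real.norm_of_nonneg (rh_nonneg p)]
    have := rh_prime hp.two_le
    linarith
  have h := EulerProduct.summable_and_hasSum_factoredNumbers_prod_filter_prime_geometric
    hlt q.primeFactors
  have h1 : ∑ a ∈ (Icc 1 K).filter (SM q), rh a ≤ ∏ p ∈ q.primeFactors with p.Prime, (1 - rh p)⁻¹ := by
    have h2 := hasSum_subtype_iff_indicator.1 h.2
    have h3 := sum_le_hasSum ((Icc 1 K).filter (SM q)) (fun i _ => by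
      apply Set.indicator_nonneg
      intro x _
      exact rh_nonneg x) h2
    refine le_trans (le_of_eq ?_) h3
    apply sum_congr rfl
    intro a ha
    rw [mem_filter, mem_Icc] at ha
    rw [Set.indicator_of_mem]
    exact Nat.mem_factoredNumbers_of_primeFactors_subset (by omega) ha.2
  refine h1.trans ?_
  have h4 : ∏ p ∈ q.primeFactors with p.Prime, (1 - rh p)⁻¹ ≤ ∏ p ∈ q.primeFactors with p.Prime, (4 : ℝ) := by
    apply prod_le_prod
    · intro p hp
      rw [mem_filter] at hp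
      have := rh_prime hp.2.two_le
      rw [inv_nonneg]; linarith
    · intro p hp
      rw [mem_filter] at hp
      have := rh_prime hp.2.two_le
      rw [inv_le_comm₀ (by linarith) (by norm_num)]
      linarith
  refine h4.trans ?_
  rw [prod_const]
  apply pow_le_pow_right₀ (by norm_num)
  exact card_le_card (filter_subset _ _)

theorem four_pow_omega (ε : ℝ) (hε : 0 < ε) :
    ∃ C : ℝ, 0 < C ∧ ∀ q : ℕ, q ≠ 0 → (4 : ℝ) ^ q.primeFactors.card ≤ C * (q : ℝ) ^ ε := by
  obtain ⟨P, hP⟩ := exists_nat_ge ((4 : ℝ) ^ (1 / ε))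
  refine ⟨4 ^ (P + 1), by positivity, fun q hq => ?_⟩
  have h1 : ∀ p : ℕ, P ≤ p → (4 : ℝ) ≤ (p : ℝ) ^ ε := by
    intro p hp
    have h2 : (4 : ℝ) ^ (1 / ε) ≤ p := hP.trans (by exact_mod_cast hp)
    calc (4 : ℝ) = ((4 : ℝ) ^ (1 / ε)) ^ ε := by
          rw [← Real.rpow_mul (by norm_num), one_div, inv_mul_cancel₀ hε.ne', Real.rpow_one]
      _ ≤ _ := Real.rpow_le_rpow (by positivity) h2 hε.le
  have h3 : (4 : ℝ) ^ q.primeFactors.card = ∏ _p ∈ q.primeFactors, (4 : ℝ) := by rw [prod_const]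
  have h4 : (4 : ℝ) ^ q.primeFactors.card ≤
      (∏ p ∈ q.primeFactors, (p : ℝ) ^ ε) * ∏ p ∈ q.primeFactors, (if p < P then (4 : ℝ) else 1) := by
    rw [h3, ← prod_mul_distrib]
    apply prod_le_prod
    · intro _ _; norm_num
    · intro p hp
      have hp1 : 1 ≤ p := (Nat.prime_of_mem_primeFactors hp).one_lt.le
      have hp2 : (1 : ℝ) ≤ (p : ℝ) ^ ε := Real.one_le_rpow (by exact_mod_cast hp1) hε.le
      split_ifs with h
      · linarith
      · rw [mul_one]; exact h1 p (not_lt.1 h)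
  refine h4.trans ?_
  rw [mul_comm]
  have h5 : ∏ p ∈ q.primeFactors, (if p < P then (4 : ℝ) else 1) ≤ 4 ^ (P + 1) := by
    rw [← prod_filter, prod_const]
    apply pow_le_pow_right₀ (by norm_num)
    calc (q.primeFactors.filter (fun p => p < P)).card ≤ (range P).card := by
          apply card_le_card
          intro p hp
          rw [mem_filter] at hp
          exact mem_range.2 hp.2
      _ ≤ P + 1 := by rw [card_range]; omega
  have h6 : ∏ p ∈ q.primeFactors, (p : ℝ) ^ ε ≤ (q : ℝ) ^ ε := by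
    rw [Real.finsetProd_rpow _ _ (fun p _ => Nat.cast_nonneg p)]
    apply Real.rpow_le_rpow (by positivity) _ hε.le
    have h7 := Nat.prod_primeFactors_dvd q
    have h8 := Nat.le_of_dvd (Nat.pos_of_ne_zero hq) h7
    calc ∏ i ∈ q.primeFactors, (i : ℝ) = ((∏ p ∈ q.primeFactors, p : ℕ) : ℝ) := by rw [Nat.cast_prod]
      _ ≤ q := by exact_mod_cast h8
  exact mul_le_mul h5 h6 (by positivity) (by positivity)

end Pool.Agent.V11300.DE
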