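import Mathlib
import Pool.Agent.H373R2.T7.SupLiou
import Pool.Agent.V11300.DE.Rankin

/-! Exponential sums of the Moebius function over the multiples of `q`. -/

set_option autoImplicit false

namespace Pool.Agent.V11300.DE

open Finset ArithmeticFunction
open Pool.Agent.H807R2.Dav
open Pool.Agent.H373R2.T7 (muC muC_norm sup_muC SupSmall ev_log' ev_L')

lemma harm_le (D : ℕ) : ∑ e ∈ Icc 1 D, 1 / (e : ℝ) ≤ 1 + Real.log D := by
  have h := harmonic_le_one_add_log D
  rw [harmonic_eq_sum_Icc] at h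
  push_cast at h
  simpa [one_div] using h

lemma inv_tot_le (n : ℕ) (hn : 1 ≤ n) : 1 / (Nat.totient n : ℝ) ≤ (n.divisors.card : ℝ) / n := by
  have h1 : n ≤ n.divisors.card * Nat.totient n := by
    calc n = ∑ d ∈ n.divisors, Nat.totient d := (Nat.sum_totient n).symm
      _ ≤ ∑ _d ∈ n.divisors, Nat.totient n := by
          apply sum_le_sum
          intro d hd
          exact Nat.le_of_dvd (Nat.totient_pos.mpr hn)
            (Nat.totient_dvd_of_dvd (Nat.dvd_of_mem_divisors hd))
      _ = _ := by rw [sum_const, smul_eq_mul]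
  have h2 : (0:ℝ) < Nat.totient n := by exact_mod_cast Nat.totient_pos.mpr hn
  have h3 : (0:ℝ) < n := by exact_mod_cast hn
  rw [div_le_div_iff₀ h2 h3, one_mul]
  exact_mod_cast h1

theorem sum_inv_tot (D : ℕ) : ∑ e ∈ Icc 1 D, 1 / (Nat.totient e : ℝ) ≤ (1 + Real.log D) ^ 2 := by
  have h1 : ∑ e ∈ Icc 1 D, 1 / (Nat.totient e : ℝ) ≤ ∑ e ∈ Icc 1 D, ∑ a ∈ e.divisors, 1 / (a : ℝ) * (1 / ((e / a : ℕ) : ℝ)) := by
    apply sum_le_sum
    intro e he
    rw [mem_Icc] at he
    refine (inv_tot_le e he.1).trans (le_of_eq ?_)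
    have : ∀ a ∈ e.divisors, 1 / (a : ℝ) * (1 / ((e / a : ℕ) : ℝ)) = 1 / (e : ℝ) := by
      intro a ha
      have hd := Nat.dvd_of_mem_divisors ha
      rw [one_div_mul_one_div, ← Nat.cast_mul, Nat.mul_div_cancel' hd]
    rw [sum_congr rfl this, sum_const, nsmul_eq_mul]
    ring
  refine h1.trans ?_
  rw [sum_div_swap D (fun a b => 1 / (a : ℝ) * (1 / (b : ℝ)))]
  have hl : 0 ≤ Real.log D := Real.log_natCast_nonneg D
  have h2 : ∀ a ∈ Icc 1 D, ∑ b ∈ Icc 1 (D / a), 1 / (a : ℝ) * (1 / (b : ℝ)) ≤ 1 / (a : ℝ) * (1 + Real.log D) := by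
    intro a _
    rw [← mul_sum]
    apply mul_le_mul_of_nonneg_left _ (by positivity)
    refine le_trans ?_ (harm_le D)
    apply sum_le_sum_of_subset_of_nonneg
    · exact Icc_subset_Icc_right (Nat.div_le_self D a)
    · intro i _ _; positivity
  refine (sum_le_sum h2).trans ?_
  rw [← sum_mul, pow_two]
  exact mul_le_mul_of_nonneg_right (harm_le D) (by linarith)

/-- the exponential sum of `μ` over the integers coprime to `q` -/
theorem cop_bound (U N0 : ℕ) (h : ∀ N : ℕ, N0 ≤ N → ∀ α : ℝ,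
    ‖∑ n ∈ Icc 1 N, muC n * ee ((n : ℝ) * α)‖ ≤ N / Real.log N ^ U)
    (q : ℕ) (hq : q ≠ 0) (K : ℕ) (s : ℕ) (hs : s = Nat.sqrt K) (hs1 : N0 ≤ s) (hs2 : 2 ≤ s) (β : ℝ) :
    ‖∑ k ∈ Icc 1 K, (if Nat.Coprime k q then muC k else 0) * ee ((k : ℝ) * β)‖ ≤
      K * ((1 + Real.log K) / Real.log s ^ U + 4 ^ q.primeFactors.card * rh s) := by
  set F : ℕ → ℕ → ℂ := fun a b => if SM q a then muC b * ee ((b : ℝ) * ((a : ℝ) * β)) else 0 with hF
  have hls : 0 < Real.log s := Real.log_pos (by exact_mod_cast (by omega : 1 < s))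
  have e1 : ∑ k ∈ Icc 1 K, (if Nat.Coprime k q then muC k else 0) * ee ((k : ℝ) * β) =
      ∑ k ∈ Icc 1 K, ∑ a ∈ k.divisors, F a (k / a) := by
    apply sum_congr rfl
    intro k hk
    have h1 := mu_cop q k hq
    have h2 : (if Nat.Coprime k q then muC k else 0) =
        ∑ a ∈ k.divisors, if SM q a then muC (k / a) else 0 := by
      have h3 : (((if Nat.Coprime k q then moebius k else 0 : ℤ)) : ℂ) =
          ((∑ a ∈ k.divisors, if SM q a then moebius (k / a) else 0 : ℤ) : ℂ) := by rw [h1]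
      push_cast at h3
      unfold muC
      exact h3
    rw [h2, sum_mul]
    apply sum_congr rfl
    intro a ha
    have hd := Nat.dvd_of_mem_divisors ha
    simp only [hF]
    split_ifs with hS
    · congr 2
      rw [← mul_assoc]
      congr 1
      rw [← Nat.cast_mul, Nat.div_mul_cancel hd]
    · rw [zero_mul]
  rw [e1, sum_div_swap]
  refine (norm_sum_le _ _).trans ?_
  have hterm : ∀ a ∈ Icc 1 K, ‖∑ b ∈ Icc 1 (K / a), F a b‖ ≤
      K * (1 / (a : ℝ) * (1 / Real.log s ^ U) + (if SM q a then rh a else 0) * rh s) := by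
    intro a ha
    rw [mem_Icc] at ha
    have ha0 : (0 : ℝ) < a := by exact_mod_cast ha.1
    by_cases hS : SM q a
    swap
    · simp only [hF, if_neg hS]
      simp only [sum_const_zero, norm_zero, zero_mul, add_zero]
      positivity
    simp only [hF, if_pos hS]
    have hKa : ((K / a : ℕ) : ℝ) ≤ K / a := Nat.cast_div_le
    by_cases has : a ≤ s
    · have h1 : s ≤ K / a := by
        rw [Nat.le_div_iff_mul_le ha.1]
        calc s * a ≤ s * s := Nat.mul_le_mul_left _ has
          _ ≤ K := by rw [hs]; exact Nat.sqrt_le K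
      have h2 := h (K / a) (hs1.trans h1) ((a : ℝ) * β)
      refine h2.trans ?_
      have h3 : Real.log s ≤ Real.log (K / a : ℕ) :=
        Real.log_le_log (by exact_mod_cast (by omega : 0 < s)) (by exact_mod_cast h1)
      calc ((K / a : ℕ) : ℝ) / Real.log (K / a : ℕ) ^ U ≤ ((K / a : ℕ) : ℝ) / Real.log s ^ U :=
            div_le_div_of_nonneg_left (by positivity) (by positivity) (pow_le_pow_left₀ hls.le h3 U)
        _ ≤ (K / a) / Real.log s ^ U := div_le_div_of_nonneg_right hKa (by positivity)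
        _ = K * (1 / (a : ℝ) * (1 / Real.log s ^ U)) := by field_simp
        _ ≤ _ := by
            apply mul_le_mul_of_nonneg_left _ (Nat.cast_nonneg K)
            have : 0 ≤ rh a * rh s := mul_nonneg (rh_nonneg a) (rh_nonneg s)
            linarith
    · rw [not_le] at has
      have h1 : ‖∑ b ∈ Icc 1 (K / a), muC b * ee ((b : ℝ) * ((a : ℝ) * β))‖ ≤ ((K / a : ℕ) : ℝ) := by
        refine (norm_sum_le _ _).trans ?_
        calc ∑ b ∈ Icc 1 (K / a), ‖muC b * ee ((b : ℝ) * ((a : ℝ) * β))‖ ≤ ∑ b ∈ Icc 1 (K / a), (1 : ℝ) := by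
              apply sum_le_sum
              intro b _
              rw [norm_mul, norm_ee, mul_one]
              exact muC_norm b
          _ = _ := by simp
      refine h1.trans (hKa.trans ?_)
      have h2 : (1 : ℝ) / a = rh a * rh a := by
        rw [rh_apply, ← Real.rpow_add ha0]
        norm_num
        rw [Real.rpow_neg_one]
      have h3 : rh a ≤ rh s := by
        rw [rh_apply, rh_apply]
        apply Real.rpow_le_rpow_of_nonpos (by exact_mod_cast (by omega : 0 < s)) (by exact_mod_cast has.le) (by norm_num)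
      calc (K : ℝ) / a = K * (rh a * rh a) := by rw [← h2]; ring
        _ ≤ K * (rh a * rh s) := by
            apply mul_le_mul_of_nonneg_left _ (Nat.cast_nonneg K)
            exact mul_le_mul_of_nonneg_left h3 (rh_nonneg a)
        _ ≤ _ := by
            apply mul_le_mul_of_nonneg_left _ (Nat.cast_nonneg K)
            have : 0 ≤ 1 / (a : ℝ) * (1 / Real.log s ^ U) := by positivity
            linarith
  refine (sum_le_sum hterm).trans ?_
  rw [← mul_sum, sum_add_distrib, ← sum_mul, ← sum_mul]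
  apply mul_le_mul_of_nonneg_left _ (Nat.cast_nonneg K)
  apply add_le_add
  · rw [mul_one_div]
    exact div_le_div_of_nonneg_right (harm_le K) (by positivity)
  · apply mul_le_mul_of_nonneg_right _ (rh_nonneg s)
    rw [← sum_filter]
    exact rankin q K

end Pool.Agent.V11300.DE
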