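import Mathlib
import Pool.Agent.V11300.DE.SupQ

/-! Exponential sums of the Moebius function over the multiples of `q ≤ X^θ`. -/

set_option autoImplicit false

namespace Pool.Agent.V11300.DE

open Finset ArithmeticFunction
open Pool.Agent.H807R2.Dav
open Pool.Agent.H373R2.T7 (muC muC_norm sup_muC SupSmall ev_log' ev_L')

lemma ev_rpow (k : ℕ) (C c : ℝ) (hc : 0 < c) :
    ∀ᶠ X : ℕ in Filter.atTop, C * Real.log X ^ k ≤ (X : ℝ) ^ c := by
  have h := (isLittleO_log_rpow_rpow_atTop (k : ℝ) hc).bound (show 0 < 1 / (|C| + 1) by positivity)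
  have h2 := (tendsto_natCast_atTop_atTop (R := ℝ)).eventually h
  filter_upwards [h2, Filter.eventually_ge_atTop 1] with x hx hx1
  have hx1 : (1 : ℝ) ≤ x := by exact_mod_cast hx1
  have hl : 0 ≤ Real.log x := Real.log_nonneg hx1
  rw [Real.norm_of_nonneg (by positivity), Real.norm_of_nonneg (by positivity), Real.rpow_natCast] at hx
  have h4 : C ≤ |C| + 1 := by have := le_abs_self C; linarith
  calc C * Real.log x ^ k ≤ (|C| + 1) * Real.log x ^ k := mul_le_mul_of_nonneg_right h4 (by positivity)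
    _ ≤ (|C| + 1) * (1 / (|C| + 1) * (x : ℝ) ^ c) := mul_le_mul_of_nonneg_left hx (by positivity)
    _ = _ := by field_simp

lemma ev_log_ge (C : ℝ) : ∀ᶠ X : ℕ in Filter.atTop, C ≤ Real.log X :=
  (Real.tendsto_log_atTop.comp (tendsto_natCast_atTop_atTop (R := ℝ))).eventually_ge_atTop C

lemma ev_rpow_ge (C c : ℝ) (hc : 0 < c) : ∀ᶠ X : ℕ in Filter.atTop, C ≤ (X : ℝ) ^ c :=
  ((tendsto_rpow_atTop hc).comp (tendsto_natCast_atTop_atTop (R := ℝ))).eventually_ge_atTop C

lemma mult_sum (q : ℕ) (hq : 0 < q) (X : ℕ) (α : ℝ) :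
    ∑ m ∈ (Icc 1 X).filter (fun m => q ∣ m), muC m * ee ((m : ℝ) * α) =
      muC q * ∑ k ∈ Icc 1 (X / q), (if Nat.Coprime k q then muC k else 0) * ee ((k : ℝ) * ((q : ℝ) * α)) := by
  rw [mul_sum]
  symm
  apply sum_bij' (fun k _ => q * k) (fun m _ => m / q)
  · intro k hk
    rw [mem_Icc] at hk
    rw [mem_filter, mem_Icc]
    refine ⟨⟨Nat.mul_pos hq hk.1, ?_⟩, Dvd.intro k rfl⟩
    have := (Nat.le_div_iff_mul_le hq).1 hk.2
    rw [mul_comm]; exact this
  · intro m hm
    rw [mem_filter, mem_Icc] at hm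
    rw [mem_Icc]
    refine ⟨?_, Nat.div_le_div_right hm.1.2⟩
    exact Nat.div_pos (Nat.le_of_dvd (by omega) hm.2) hq
  · intro k _
    exact Nat.mul_div_cancel_left k hq
  · intro m hm
    rw [mem_filter] at hm
    exact Nat.mul_div_cancel' hm.2
  · intro k hk
    have h1 : muC (q * k) = muC q * (if Nat.Coprime k q then muC k else 0) := by
      unfold muC
      split_ifs with hc
      · rw [isMultiplicative_moebius.map_mul_of_coprime hc.symm]
        push_cast; ring
      · rw [mul_zero]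
        have : ¬ Squarefree (q * k) := fun hs => hc (Nat.coprime_of_squarefree_mul hs).symm
        rw [moebius_eq_zero_of_not_squarefree this]
        simp
    rw [h1, Nat.cast_mul, mul_assoc, show (k : ℝ) * ((q : ℝ) * α) = (q : ℝ) * k * α by ring]

theorem supq (θ : ℝ) (hθ0 : 0 < θ) (hθ : θ < 1) (U : ℕ) : ∃ X0 : ℕ, ∀ X : ℕ, X0 ≤ X → ∀ q : ℕ, 0 < q →
    (q : ℝ) ≤ (X : ℝ) ^ θ → ∀ α : ℝ,
    ‖∑ m ∈ (Icc 1 X).filter (fun m => q ∣ m), muC m * ee ((m : ℝ) * α)‖ ≤ (X / q) / Real.log X ^ U := by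
  obtain ⟨N0, hN0⟩ := sup_muC (U + 2)
  set c : ℝ := (1 - θ) / 8 with hc
  have hc0 : 0 < c := by rw [hc]; linarith
  obtain ⟨C, hC0, hC⟩ := four_pow_omega (c / 2) (by linarith)
  have E1 := ev_rpow_ge (max N0 2) c hc0
  have E2 := ev_log_ge (max 1 (4 / (2 * c) ^ (U + 2)))
  have E3 := ev_rpow U (2 * C) (c / 2) (by linarith)
  obtain ⟨X0, hX0⟩ := Filter.eventually_atTop.1 (((E1.and E2).and E3).and (Filter.eventually_ge_atTop 2))
  refine ⟨X0, fun X hX q hq hqX α => ?_⟩
  obtain ⟨⟨⟨e1, e2⟩, e3⟩, e4⟩ := hX0 X hX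
  have hXr : (2 : ℝ) ≤ X := by exact_mod_cast e4
  have hX1 : (1 : ℝ) ≤ X := by linarith
  have hX00 : (0 : ℝ) < X := by linarith
  have hq0 : (0 : ℝ) < q := by exact_mod_cast hq
  set L := Real.log X with hL
  have hL1 : 1 ≤ L := (le_max_left _ _).trans e2
  have hL2 : 4 / (2 * c) ^ (U + 2) ≤ L := (le_max_right _ _).trans e2
  set Z : ℝ := (X : ℝ) ^ c with hZ
  have hZ1 : (N0 : ℝ) ≤ Z := (le_max_left _ _).trans e1
  have hZ2 : 2 ≤ Z := (le_max_right _ _).trans e1
  have hZ8 : (X : ℝ) / X ^ θ = Z ^ 8 := by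
    rw [hZ, ← Real.rpow_natCast, ← Real.rpow_mul hX00.le]
    rw [show c * ((8 : ℕ) : ℝ) = 1 - θ by rw [hc]; push_cast; ring, Real.rpow_sub hX00, Real.rpow_one]
  have hXq : Z ^ 8 ≤ X / q := by
    rw [← hZ8]
    exact div_le_div_of_nonneg_left hX00.le hq0 hqX
  set K := X / q with hK
  have hKr : (K : ℝ) ≤ X / q := Nat.cast_div_le
  have hK1 : (X : ℝ) / q < K + 1 := by
    rw [div_lt_iff₀ hq0]
    have : X < (K + 1) * q := by
      rw [mul_comm]
      exact Nat.lt_mul_div_succ X hq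
    exact_mod_cast this
  set s := Nat.sqrt K with hs
  have hsK : K < (s + 1) * (s + 1) := Nat.lt_succ_sqrt K
  have hs4 : Z ^ 4 ≤ s + 1 := by
    have h1 : Z ^ 8 < (s + 1 : ℝ) ^ 2 := by
      have h2 : (K : ℝ) + 1 ≤ (s + 1) * (s + 1) := by exact_mod_cast hsK
      nlinarith
    have h3 : (Z ^ 4) ^ 2 < (s + 1 : ℝ) ^ 2 := by
      calc (Z ^ 4) ^ 2 = Z ^ 8 := by ring
        _ < _ := h1
    exact (lt_of_pow_lt_pow_left₀ 2 (by positivity) h3).le
  have hw : 4 ≤ Z ^ 2 := by nlinarith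
  have hsZ : Z ^ 2 ≤ s := by nlinarith [hs4, (by ring : Z ^ 4 = (Z ^ 2) ^ 2)]
  have hsZ1 : Z ≤ s := by nlinarith
  have hs1 : N0 ≤ s := by exact_mod_cast (hZ1.trans hsZ1)
  have hs2 : 2 ≤ s := by exact_mod_cast (hZ2.trans hsZ1)
  have hs0 : (0 : ℝ) < s := by linarith
  rw [mult_sum q hq, norm_mul]
  have hb := cop_bound (U + 2) N0 hN0 q hq.ne' K s hs hs1 hs2 ((q : ℝ) * α)
  have hlog : 2 * c * L ≤ Real.log s := by
    have h1 : Real.log (Z ^ 2) ≤ Real.log s := Real.log_le_log (by positivity) hsZ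
    rw [Real.log_pow, hZ, Real.log_rpow hX00] at h1
    push_cast at h1
    linarith
  have hrh : rh s ≤ (X : ℝ) ^ (-c) := by
    rw [rh_apply]
    calc (s : ℝ) ^ (-(1 / 2) : ℝ) ≤ (Z ^ 2) ^ (-(1 / 2) : ℝ) :=
          Real.rpow_le_rpow_of_nonpos (by positivity) hsZ (by norm_num)
      _ = (X : ℝ) ^ (-c) := by
          rw [hZ, ← Real.rpow_natCast, ← Real.rpow_mul hX00.le, ← Real.rpow_mul hX00.le]
          congr 1
          push_cast; ring
  have hqX' : (q : ℝ) ≤ X := by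
    refine hqX.trans ?_
    calc (X : ℝ) ^ θ ≤ (X : ℝ) ^ (1 : ℝ) := Real.rpow_le_rpow_of_exponent_le hX1 hθ.le
      _ = X := Real.rpow_one _
  have h4w : (4 : ℝ) ^ q.primeFactors.card * rh s ≤ 1 / (2 * L ^ U) := by
    calc (4 : ℝ) ^ q.primeFactors.card * rh s ≤ (C * (X : ℝ) ^ (c / 2)) * (X : ℝ) ^ (-c) := by
          apply mul_le_mul _ hrh (rh_nonneg s) (by positivity)
          refine (hC q hq.ne').trans ?_
          apply mul_le_mul_of_nonneg_left _ hC0.le
          exact Real.rpow_le_rpow hq0.le hqX' (by linarith)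
      _ = C * (X : ℝ) ^ (-(c / 2)) := by
          rw [mul_assoc, ← Real.rpow_add hX00]
          congr 2
          ring
      _ ≤ 1 / (2 * L ^ U) := by
          rw [Real.rpow_neg hX00.le, ← div_eq_mul_inv, div_le_div_iff₀ (by positivity) (by positivity)]
          linarith
  have h5 : (1 + Real.log K) / Real.log s ^ (U + 2) ≤ 1 / (2 * L ^ U) := by
    have h6 : Real.log K ≤ L := by
      have hKpos : 0 < K := by
        rcases Nat.eq_zero_or_pos K with h | h
        · rw [h] at hs; simp at hs; omega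
        · exact h
      exact Real.log_le_log (by exact_mod_cast hKpos) (by exact_mod_cast Nat.div_le_self X q)
    have h7 : (2 * c * L) ^ (U + 2) ≤ Real.log s ^ (U + 2) := pow_le_pow_left₀ (by positivity) hlog _
    calc (1 + Real.log K) / Real.log s ^ (U + 2) ≤ (2 * L) / (2 * c * L) ^ (U + 2) := by
          apply div_le_div₀ (by linarith) (by linarith) (by positivity) h7
      _ ≤ 1 / (2 * L ^ U) := by
          rw [div_le_div_iff₀ (by positivity) (by positivity), mul_pow]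
          rw [div_le_iff₀ (by positivity)] at hL2
          have : (2 * L) * (2 * L ^ U) = 4 * L ^ (U + 1) := by ring
          rw [this]
          have h8 : (2 * c) ^ (U + 2) * L ^ (U + 2) = (L * (2 * c) ^ (U + 2)) * L ^ (U + 1) := by ring
          rw [one_mul, h8]
          exact mul_le_mul_of_nonneg_right hL2 (by positivity)
  calc ‖muC q‖ * _ ≤ 1 * (K * ((1 + Real.log K) / Real.log s ^ (U + 2) + 4 ^ q.primeFactors.card * rh s)) :=
        mul_le_mul (muC_norm q) hb (norm_nonneg _) (by norm_num)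
    _ ≤ 1 * (K * (1 / (2 * L ^ U) + 1 / (2 * L ^ U))) := by
        apply mul_le_mul_of_nonneg_left _ (by norm_num)
        apply mul_le_mul_of_nonneg_left _ (Nat.cast_nonneg K)
        exact add_le_add h5 h4w
    _ = K / L ^ U := by field_simp; ring
    _ ≤ _ := div_le_div_of_nonneg_right hKr (by positivity)

end Pool.Agent.V11300.DE
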