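import Mathlib
import Pool.Agent.V11300.DE.SupQ2
import Pool.Agent.H373R2.T7.BilF

/-! Mean squares of convolutions. -/

set_option autoImplicit false

namespace Pool.Agent.V11300.DE

open Finset ArithmeticFunction
open Pool.Agent.H807R2.Dav
open Pool.Agent.H373R2.T7 (muC muC_norm parseval_Icc)

/-- the mean square of a convolution -/
theorem conv_l2 (X : ℕ) (hX : 1 ≤ X) (u v : ℕ → ℂ) (δ : ℝ)
    (hδ : ∀ α : ℝ, ‖∑ m ∈ Icc 1 X, v m * ee ((m : ℝ) * α)‖ ≤ δ) :
    ∑ N ∈ Icc 1 X, ‖∑ n ∈ Ico 1 N, u n * v (N - n)‖ ^ 2 ≤ δ ^ 2 * ∑ n ∈ Icc 1 X, ‖u n‖ ^ 2 := by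
  set M := 2 * X with hM
  have hM1 : 1 ≤ M := by omega
  set c : ℕ → ℂ := fun N => ∑ p ∈ (Icc 1 X ×ˢ Icc 1 X).filter (fun p => p.1 + p.2 = N), u p.1 * v p.2 with hc
  have hcN : ∀ N ∈ Icc 1 X, ∑ n ∈ Ico 1 N, u n * v (N - n) = c N := by
    intro N hN
    rw [mem_Icc] at hN
    rw [hc]
    apply sum_bij' (fun n _ => (n, N - n)) (fun p _ => p.1)
    · intro n hn
      rw [mem_Ico] at hn
      simp only [mem_filter, mem_product, mem_Icc]
      omega
    · intro p hp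
      simp only [mem_filter, mem_product, mem_Icc] at hp
      rw [mem_Ico]
      omega
    · intro n _; rfl
    · intro p hp
      simp only [mem_filter, mem_product, mem_Icc] at hp
      ext
      · rfl
      · simp only
        omega
    · intro n _; rfl
  have hchat : ∀ α : ℝ, ∑ N ∈ Icc 1 M, c N * ee ((N : ℝ) * α) =
      (∑ n ∈ Icc 1 X, u n * ee ((n : ℝ) * α)) * ∑ m ∈ Icc 1 X, v m * ee ((m : ℝ) * α) := by
    intro α
    rw [sum_mul_sum, ← sum_product']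
    have hfib := sum_fiberwise_of_maps_to (s := Icc 1 X ×ˢ Icc 1 X) (t := Icc 1 M) (g := fun p => p.1 + p.2)
      (fun p hp => by
        simp only [mem_product, mem_Icc] at hp ⊢
        omega) (fun p => u p.1 * ee ((p.1 : ℝ) * α) * (v p.2 * ee ((p.2 : ℝ) * α)))
    rw [← hfib]
    apply sum_congr rfl
    intro N _
    rw [hc]
    simp only
    rw [sum_mul]
    apply sum_congr rfl
    intro p hp
    rw [mem_filter] at hp
    have : ee ((N : ℝ) * α) = ee ((p.1 : ℝ) * α) * ee ((p.2 : ℝ) * α) := by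
      rw [← ee_add, ← hp.2]
      congr 1
      push_cast
      ring
    rw [this]
    ring
  have h1 := parseval_Icc M M hM1 le_rfl c 1 (Or.inl rfl)
  have h2 := parseval_Icc X M hM1 (by omega) u 1 (Or.inl rfl)
  have hM0 : (0 : ℝ) < M := by exact_mod_cast hM1
  have h3 : (M : ℝ) * ∑ N ∈ Icc 1 M, ‖c N‖ ^ 2 ≤ δ ^ 2 * (M * ∑ n ∈ Icc 1 X, ‖u n‖ ^ 2) := by
    rw [← h1, ← h2, mul_sum]
    apply sum_le_sum
    intro t _
    have e1 : ∀ (a : ℕ), (t : ℝ) * ((((1 : ℤ) * a : ℤ) : ℝ) / M) = (a : ℝ) * ((t : ℝ) / M) := by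
      intro a; push_cast; ring
    simp only [e1]
    rw [hchat, norm_mul, mul_pow, mul_comm]
    apply mul_le_mul_of_nonneg_right _ (by positivity)
    exact pow_le_pow_left₀ (norm_nonneg _) (hδ _) 2
  have h4 : ∑ N ∈ Icc 1 M, ‖c N‖ ^ 2 ≤ δ ^ 2 * ∑ n ∈ Icc 1 X, ‖u n‖ ^ 2 := by
    have : (M : ℝ) * ∑ N ∈ Icc 1 M, ‖c N‖ ^ 2 ≤ M * (δ ^ 2 * ∑ n ∈ Icc 1 X, ‖u n‖ ^ 2) := by
      refine h3.trans (le_of_eq (by ring))
    exact le_of_mul_le_mul_left this hM0
  refine le_trans ?_ h4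
  have h5 : ∑ N ∈ Icc 1 X, ‖∑ n ∈ Ico 1 N, u n * v (N - n)‖ ^ 2 = ∑ N ∈ Icc 1 X, ‖c N‖ ^ 2 := by
    apply sum_congr rfl
    intro N hN
    rw [hcN N hN]
  rw [h5]
  apply sum_le_sum_of_subset_of_nonneg (Icc_subset_Icc_right (by omega))
  intro _ _ _; positivity

/-- truncated convolution sums in the residue class of `N` -/
noncomputable def T (f g : ℕ → ℝ) (N q y : ℕ) : ℝ :=
  ∑ n ∈ (Ico 1 N).filter (fun n => n ≤ y ∧ n ≡ N [MOD q]), f n * g (N - n)

/-- the Moebius function, real valued -/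
noncomputable def mur (n : ℕ) : ℝ := (moebius n : ℤ)

lemma mur_abs (n : ℕ) : |mur n| ≤ 1 := by
  have h := muC_norm n
  unfold muC at h
  unfold mur
  rw [← Real.norm_eq_abs, ← Complex.norm_real]
  push_cast
  exact h

theorem T_l2 (θ : ℝ) (hθ0 : 0 < θ) (hθ : θ < 1) (U : ℕ) : ∃ X0 : ℕ, ∀ X : ℕ, X0 ≤ X → ∀ q : ℕ, 0 < q →
    (q : ℝ) ≤ (X : ℝ) ^ θ → ∀ f : ℕ → ℝ, (∀ n, |f n| ≤ Real.log n) → ∀ y : ℕ,
    ∑ N ∈ Icc 1 X, |T f mur N q y| ≤ X ^ 2 / q * Real.log X / Real.log X ^ U := by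
  obtain ⟨X0, hX0⟩ := supq θ hθ0 hθ U
  refine ⟨max X0 2, fun X hX q hq hqX f hf y => ?_⟩
  have hX2 : 2 ≤ X := (le_max_right _ _).trans hX
  have hXr : (2 : ℝ) ≤ X := by exact_mod_cast hX2
  have hL0 : 0 < Real.log X := Real.log_pos (by linarith)
  have hq0 : (0 : ℝ) < q := by exact_mod_cast hq
  set δ : ℝ := (X / q) / Real.log X ^ U with hδ
  have hδ0 : 0 ≤ δ := by rw [hδ]; positivity
  set u : ℕ → ℂ := fun n => if n ≤ y then ((f n : ℝ) : ℂ) else 0 with hu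
  set v : ℕ → ℂ := fun m => if q ∣ m then muC m else 0 with hv
  have h1 := conv_l2 X (by omega) u v δ (by
    intro α
    have := hX0 X ((le_max_left _ _).trans hX) q hq hqX α
    rw [sum_filter] at this
    refine le_trans (le_of_eq ?_) this
    congr 1
    apply sum_congr rfl
    intro m _
    rw [hv]
    simp only
    split_ifs
    · rfl
    · rw [zero_mul])
  have h2 : ∑ n ∈ Icc 1 X, ‖u n‖ ^ 2 ≤ X * Real.log X ^ 2 := by
    calc ∑ n ∈ Icc 1 X, ‖u n‖ ^ 2 ≤ ∑ n ∈ Icc 1 X, Real.log X ^ 2 := by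
          apply sum_le_sum
          intro n hn
          rw [mem_Icc] at hn
          apply pow_le_pow_left₀ (norm_nonneg _)
          rw [hu]
          simp only
          split_ifs
          · rw [Complex.norm_real, Real.norm_eq_abs]
            refine (hf n).trans ?_
            exact Real.log_le_log (by exact_mod_cast hn.1) (by exact_mod_cast hn.2)
          · rw [norm_zero]; exact hL0.le
      _ = _ := by simp
  have h3 : ∀ N ∈ Icc 1 X, |T f mur N q y| = ‖∑ n ∈ Ico 1 N, u n * v (N - n)‖ := by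
    intro N _
    rw [← Real.norm_eq_abs, ← Complex.norm_real]
    congr 1
    unfold T
    rw [sum_filter, Complex.ofReal_sum]
    apply sum_congr rfl
    intro n hn
    rw [mem_Ico] at hn
    rw [hu, hv]
    simp only
    have hiff : n ≡ N [MOD q] ↔ q ∣ N - n := Nat.modEq_iff_dvd' hn.2.le
    by_cases ha : n ≤ y
    · by_cases hb : q ∣ N - n
      · rw [if_pos ⟨ha, hiff.2 hb⟩, if_pos ha, if_pos hb]
        unfold mur muC
        push_cast
        ring
      · rw [if_neg (fun h => hb (hiff.1 h.2)), if_neg hb]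
        simp
    · rw [if_neg (fun h => ha h.1), if_neg ha]
      simp
  have h4 : (∑ N ∈ Icc 1 X, |T f mur N q y|) ^ 2 ≤ (X ^ 2 / q * Real.log X / Real.log X ^ U) ^ 2 := by
    calc (∑ N ∈ Icc 1 X, |T f mur N q y|) ^ 2 ≤ (Icc 1 X).card * ∑ N ∈ Icc 1 X, |T f mur N q y| ^ 2 :=
          sq_sum_le_card_mul_sum_sq
      _ = X * ∑ N ∈ Icc 1 X, ‖∑ n ∈ Ico 1 N, u n * v (N - n)‖ ^ 2 := by
          rw [Nat.card_Icc, Nat.add_sub_cancel]
          congr 1
          apply sum_congr rfl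
          intro N hN
          rw [h3 N hN]
      _ ≤ X * (δ ^ 2 * (X * Real.log X ^ 2)) := by
          apply mul_le_mul_of_nonneg_left _ (Nat.cast_nonneg X)
          exact h1.trans (mul_le_mul_of_nonneg_left h2 (by positivity))
      _ = _ := by rw [hδ]; ring
  exact (pow_le_pow_iff_left₀ (sum_nonneg fun _ _ => abs_nonneg _) (by positivity) two_ne_zero).1 h4

end Pool.Agent.V11300.DE
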