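import Mathlib
import Pool.Agent.V11300.DE.L2

/-! The core estimate: the sums of absolute values over all moduli `q ≤ N^θ` are small for almost all `N`. -/

set_option autoImplicit false

namespace Pool.Agent.V11300.DE

open Finset ArithmeticFunction

lemma count_bd (a b q v : ℕ) (hq : 0 < q) (hab : a ≤ b) :
    (((Ioc a b).filter (fun n => n ≡ v [MOD q])).card : ℝ) ≤ ((b : ℝ) - a) / q + 1 := by
  have h := Nat.Ioc_filter_modEq_card a b hq v
  have hq0 : (0 : ℚ) < q := by exact_mod_cast hq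
  have h1 : (⌊((b : ℚ) - v) / (q : ℚ)⌋ : ℚ) ≤ ((b : ℚ) - v) / q := Int.floor_le _
  have h2 : ((a : ℚ) - v) / q < ⌊((a : ℚ) - v) / (q : ℚ)⌋ + 1 := Int.lt_floor_add_one _
  have h3 : ((((Ioc a b).filter (fun n => n ≡ v [MOD q])).card : ℤ) : ℚ) ≤ ((b : ℚ) - a) / q + 1 := by
    rw [h]
    push_cast
    apply max_le
    · have : ((b : ℚ) - a) / q = ((b : ℚ) - v) / q - ((a : ℚ) - v) / q := by ring
      rw [this]
      linarith
    · have : (0 : ℚ) ≤ ((b : ℚ) - a) / q := by
        apply div_nonneg _ hq0.le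
        have : (a : ℚ) ≤ b := by exact_mod_cast hab
        linarith
      linarith
  have h4 : (((((Ioc a b).filter (fun n => n ≡ v [MOD q])).card : ℤ) : ℚ) : ℝ) ≤ ((((b : ℚ) - a) / q + 1 : ℚ) : ℝ) := by
    exact_mod_cast h3
  push_cast at h4
  exact h4

lemma T_close (f : ℕ → ℝ) (hf : ∀ n, |f n| ≤ Real.log n) (N q y y' X : ℕ) (hq : 0 < q) (hNX : N ≤ X)
    (hyy : y' ≤ y) :
    |T f mur N q y - T f mur N q y'| ≤ Real.log X * (((y : ℝ) - y') / q + 1) := by
  have h1 : T f mur N q y - T f mur N q y' =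
      ∑ n ∈ (Ico 1 N).filter (fun n => y' < n ∧ n ≤ y ∧ n ≡ N [MOD q]), f n * mur (N - n) := by
    rw [sub_eq_iff_eq_add]
    unfold T
    rw [← sum_union]
    · congr 1
      ext n
      simp only [mem_filter, mem_union, mem_Ico]
      constructor
      · rintro ⟨h1, h2, h3⟩
        by_cases h : n ≤ y'
        · exact Or.inr ⟨h1, h, h3⟩
        · exact Or.inl ⟨h1, by omega, h2, h3⟩
      · rintro (⟨h1, h2, h3, h4⟩ | ⟨h1, h2, h3⟩)
        · exact ⟨h1, h3, h4⟩
        · exact ⟨h1, by omega, h3⟩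
    · rw [disjoint_left]
      intro n hn hn'
      simp only [mem_filter] at hn hn'
      omega
  rw [h1]
  refine (abs_sum_le_sum_abs _ _).trans ?_
  have h2 : ∀ n ∈ (Ico 1 N).filter (fun n => y' < n ∧ n ≤ y ∧ n ≡ N [MOD q]),
      |f n * mur (N - n)| ≤ Real.log X := by
    intro n hn
    simp only [mem_filter, mem_Ico] at hn
    rw [abs_mul]
    have h3 : |f n| ≤ Real.log X := (hf n).trans
      (Real.log_le_log (by exact_mod_cast hn.1.1) (by exact_mod_cast (by omega : n ≤ X)))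
    calc |f n| * |mur (N - n)| ≤ |f n| * 1 := mul_le_mul_of_nonneg_left (mur_abs _) (abs_nonneg _)
      _ ≤ _ := by rw [mul_one]; exact h3
  refine (sum_le_sum h2).trans ?_
  rw [sum_const, nsmul_eq_mul, mul_comm]
  apply mul_le_mul_of_nonneg_left _ (Real.log_natCast_nonneg X)
  refine le_trans ?_ (count_bd y' y q N hq hyy)
  exact_mod_cast card_le_card (by
    intro n hn
    simp only [mem_filter, mem_Ico, mem_Ioc] at hn ⊢
    exact ⟨⟨hn.2.1, hn.2.2.1⟩, hn.2.2.2⟩)

lemma T_block (f : ℕ → ℝ) (hf : ∀ n, |f n| ≤ Real.log n) (N q y X J : ℕ) (hq : 0 < q) (hX : 0 < X) (hJ : 0 < J)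
    (hNX : N ≤ X) :
    ∃ j ∈ Icc 0 J, |T f mur N q y| ≤ |T f mur N q (j * X / J)| + Real.log X * (((X : ℝ) / J + 1) / q + 1) := by
  have hq0 : (0 : ℝ) < q := by exact_mod_cast hq
  have hJ0 : (0 : ℝ) < J := by exact_mod_cast hJ
  have hX0 : (0 : ℝ) < X := by exact_mod_cast hX
  have hl := Real.log_natCast_nonneg X
  by_cases hy : X ≤ y
  · refine ⟨J, by simp, ?_⟩
    have h1 : T f mur N q y = T f mur N q (J * X / J) := by
      rw [Nat.mul_div_cancel_left _ hJ]
      unfold T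
      congr 1
      apply filter_congr
      intro n hn
      rw [mem_Ico] at hn
      constructor
      · rintro ⟨_, h⟩; exact ⟨by omega, h⟩
      · rintro ⟨_, h⟩; exact ⟨by omega, h⟩
    rw [h1]
    have : 0 ≤ Real.log X * (((X : ℝ) / J + 1) / q + 1) := by positivity
    linarith
  · rw [not_le] at hy
    set j := y * J / X with hj
    have h1 : j * X ≤ y * J := Nat.div_mul_le_self _ _
    have h2 : y * J < (j + 1) * X := by
      rw [mul_comm (j + 1)]
      exact Nat.lt_mul_div_succ _ hX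
    have h3 : j ≤ J := by
      rw [hj]
      apply Nat.div_le_of_le_mul
      exact Nat.mul_le_mul_right _ hy.le
    refine ⟨j, by simp [h3], ?_⟩
    have h4 : j * X / J ≤ y := Nat.div_le_of_le_mul (by rw [mul_comm J]; exact h1)
    have h5 := T_close f hf N q y (j * X / J) X hq hNX h4
    have h6 : (y : ℝ) - (j * X / J : ℕ) ≤ X / J + 1 := by
      have h7 : (y : ℝ) < (j + 1) * X / J := by
        rw [lt_div_iff₀ hJ0]
        exact_mod_cast h2
      have h8 : (j : ℝ) * X / J < (j * X / J : ℕ) + 1 := by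
        rw [div_lt_iff₀ hJ0]
        have := Nat.lt_mul_div_succ (j * X) hJ
        rw [mul_comm J] at this
        exact_mod_cast this
      have h9 : ((j : ℝ) + 1) * X / J = j * X / J + X / J := by ring
      linarith
    have h10 : |T f mur N q y| ≤ |T f mur N q (j * X / J)| + |T f mur N q y - T f mur N q (j * X / J)| := by
      have := abs_add_le (T f mur N q (j * X / J)) (T f mur N q y - T f mur N q (j * X / J))
      simpa using this
    refine h10.trans ?_
    gcongr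
    refine h5.trans ?_
    gcongr

/-- the sum over the moduli -/
noncomputable def S (f g : ℕ → ℝ) (θ : ℝ) (N : ℕ) (y : ℕ → ℕ) : ℝ :=
  ∑ q ∈ Icc 1 ⌊(N : ℝ) ^ θ⌋₊, |T f g N q (y q)|

open Classical in
theorem core (θ : ℝ) (hθ0 : 0 < θ) (hθ : θ < 1) (A B : ℕ) : ∃ X0 : ℕ, ∀ X : ℕ, X0 ≤ X → ∀ f : ℕ → ℝ,
    (∀ n, |f n| ≤ Real.log n) →
    (((Icc 1 X).filter (fun N : ℕ => ∃ y : ℕ → ℕ, (N : ℝ) / Real.log N ^ A < S f mur θ N y)).card : ℝ) ≤
      X / Real.log X ^ B := by
  set K0 : ℕ := A + B + 3 with hK0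
  set U : ℕ := K0 + A + 2 * B + 3 with hU
  obtain ⟨X1, hX1⟩ := T_l2 θ hθ0 hθ U
  have E1 := ev_log_ge 48
  have E2 := ev_rpow (A + B + 1) 16 (1 - θ) (by linarith)
  have E3 := ev_rpow (A + B + 2) 32 1 (by norm_num)
  have E4 := ev_rpow B 4 1 (by norm_num)
  obtain ⟨X2, hX2⟩ := Filter.eventually_atTop.1 (((E1.and E2).and (E3.and E4)).and (Filter.eventually_ge_atTop 2))
  refine ⟨max X1 X2, fun X hX f hf => ?_⟩
  obtain ⟨⟨⟨e1, e2⟩, e3, e4⟩, e5⟩ := hX2 X ((le_max_right _ _).trans hX)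
  have hT := hX1 X ((le_max_left _ _).trans hX)
  rw [Real.rpow_one] at e3 e4
  have hXr : (2 : ℝ) ≤ X := by exact_mod_cast e5
  have hX0 : (0 : ℝ) < X := by linarith
  have hX1' : (1 : ℝ) ≤ X := by linarith
  set L := Real.log X with hL
  have hL0 : 0 < L := by linarith
  have hL1 : 1 ≤ L := by linarith
  set J : ℕ := ⌈L ^ K0⌉₊ with hJ
  have hJ1 : L ^ K0 ≤ J := Nat.le_ceil _
  have hLK : 1 ≤ L ^ K0 := one_le_pow₀ hL1
  have hJ2 : (J : ℝ) + 1 ≤ 3 * L ^ K0 := by
    have := Nat.ceil_lt_add_one (by positivity : 0 ≤ L ^ K0)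
    rw [← hJ] at this
    linarith
  have hJ0 : 0 < J := by
    rw [hJ]; exact Nat.ceil_pos.2 (by positivity)
  have hJ0' : (0 : ℝ) < J := by exact_mod_cast hJ0
  set Q : ℕ := ⌊(X : ℝ) ^ θ⌋₊ with hQ
  have hQ1 : (Q : ℝ) ≤ (X : ℝ) ^ θ := Nat.floor_le (by positivity)
  have hQX : (Q : ℝ) ≤ X := hQ1.trans (by
    calc (X : ℝ) ^ θ ≤ (X : ℝ) ^ (1 : ℝ) := Real.rpow_le_rpow_of_exponent_le hX1' hθ.le
      _ = X := Real.rpow_one _)
  have hharm : ∑ q ∈ Icc 1 Q, 1 / (q : ℝ) ≤ 2 * L := by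
    refine (harm_le Q).trans ?_
    rcases Nat.eq_zero_or_pos Q with h | h
    · rw [h]; simp; linarith
    · have : Real.log Q ≤ L := Real.log_le_log (by exact_mod_cast h) hQX
      linarith
  -- the block sums
  set W : ℕ → ℝ := fun N => ∑ q ∈ Icc 1 Q, ∑ j ∈ Icc 0 J, |T f mur N q (j * X / J)| with hW
  have hW0 : ∀ N, 0 ≤ W N := fun N => sum_nonneg fun _ _ => sum_nonneg fun _ _ => abs_nonneg _
  have hWsum : ∑ N ∈ Icc 1 X, W N ≤ 6 * X ^ 2 * L ^ (K0 + 2) / L ^ U := by
    calc ∑ N ∈ Icc 1 X, W N = ∑ q ∈ Icc 1 Q, ∑ j ∈ Icc 0 J, ∑ N ∈ Icc 1 X, |T f mur N q (j * X / J)| := by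
          rw [hW]
          simp only
          rw [sum_comm]
          apply sum_congr rfl
          intro q _
          rw [sum_comm]
      _ ≤ ∑ q ∈ Icc 1 Q, ∑ j ∈ Icc 0 J, (X ^ 2 / q * L / L ^ U) := by
          apply sum_le_sum
          intro q hq
          apply sum_le_sum
          intro j _
          rw [mem_Icc] at hq
          apply hT q hq.1 _ f hf
          exact le_trans (by exact_mod_cast hq.2) hQ1
      _ = (J + 1) * (X ^ 2 * L / L ^ U) * ∑ q ∈ Icc 1 Q, 1 / (q : ℝ) := by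
          rw [mul_sum]
          apply sum_congr rfl
          intro q _
          rw [sum_const, Nat.card_Icc, nsmul_eq_mul]
          push_cast
          ring
      _ ≤ (3 * L ^ K0) * (X ^ 2 * L / L ^ U) * (2 * L) := by
          gcongr
      _ = _ := by ring
  have hlarge : ∀ N ∈ Icc 1 X, (X : ℝ) / (2 * L ^ B) < N →
      (∃ y : ℕ → ℕ, (N : ℝ) / Real.log N ^ A < S f mur θ N y) → (X : ℝ) / (4 * L ^ (A + B)) ≤ W N := by
    intro N hN hN1 ⟨y, hy⟩
    rw [mem_Icc] at hN
    have hN2 : 1 < N := by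
      have h1 : (2 : ℝ) ≤ X / (2 * L ^ B) := by
        rw [le_div_iff₀ (by positivity)]
        linarith
      have h2 : (1 : ℝ) < N := by linarith
      exact_mod_cast h2
    have hN0 : (0 : ℝ) < N := by exact_mod_cast (by omega : 0 < N)
    have hlN : 0 < Real.log N := Real.log_pos (by exact_mod_cast hN2)
    have hlNL : Real.log N ≤ L := Real.log_le_log hN0 (by exact_mod_cast hN.2)
    have h1 : (X : ℝ) / (2 * L ^ (A + B)) < S f mur θ N y := by
      refine lt_of_le_of_lt ?_ hy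
      calc (X : ℝ) / (2 * L ^ (A + B)) = (X / (2 * L ^ B)) / L ^ A := by rw [pow_add]; field_simp
        _ ≤ N / L ^ A := by gcongr
        _ ≤ N / Real.log N ^ A := by gcongr
    have h2 : S f mur θ N y ≤ ∑ q ∈ Icc 1 Q, |T f mur N q (y q)| := by
      unfold S
      apply sum_le_sum_of_subset_of_nonneg
      · apply Icc_subset_Icc_right
        rw [hQ]
        apply Nat.floor_le_floor
        apply Real.rpow_le_rpow hN0.le (by exact_mod_cast hN.2) hθ0.le
      · intro _ _ _; exact abs_nonneg _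
    have h3 : ∑ q ∈ Icc 1 Q, |T f mur N q (y q)| ≤
        W N + ∑ q ∈ Icc 1 Q, L * (((X : ℝ) / J + 1) * (1 / q) + 1) := by
      rw [hW]
      simp only
      rw [← sum_add_distrib]
      apply sum_le_sum
      intro q hq
      rw [mem_Icc] at hq
      obtain ⟨j, hj, hb⟩ := T_block f hf N q (y q) X J hq.1 (by omega) hJ0 hN.2
      have h4 : |T f mur N q (j * X / J)| ≤ ∑ j ∈ Icc 0 J, |T f mur N q (j * X / J)| :=
        single_le_sum (f := fun j => |T f mur N q (j * X / J)|) (fun _ _ => abs_nonneg _) hj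
      rw [mul_one_div]
      linarith
    have h5 : ∑ q ∈ Icc 1 Q, L * (((X : ℝ) / J + 1) * (1 / q) + 1) ≤ X / (4 * L ^ (A + B)) := by
      rw [← mul_sum, sum_add_distrib, ← mul_sum, sum_const, Nat.card_Icc, nsmul_eq_mul, mul_one,
        Nat.add_sub_cancel]
      calc L * (((X : ℝ) / J + 1) * ∑ q ∈ Icc 1 Q, 1 / (q : ℝ) + Q) ≤
          L * (((X : ℝ) / L ^ K0 + 1) * (2 * L) + (X : ℝ) ^ θ) := by
            gcongr
        _ = 2 * X * (L ^ 2 / L ^ K0) + 2 * L ^ 2 + L * (X : ℝ) ^ θ := by ring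
        _ ≤ X / (16 * L ^ (A + B)) + X / (16 * L ^ (A + B)) + X / (16 * L ^ (A + B)) := by
            have a1 : 2 * X * (L ^ 2 / L ^ K0) ≤ X / (16 * L ^ (A + B)) := by
              have : L ^ 2 / L ^ K0 = 1 / L ^ (A + B + 1) := by
                rw [hK0, show A + B + 3 = (A + B + 1) + 2 by ring, pow_add]
                field_simp
              rw [this, pow_succ, mul_one_div, div_le_div_iff₀ (by positivity) (by positivity)]
              have : 0 < X * L ^ (A + B) := by positivity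
              nlinarith
            have a2 : 2 * L ^ 2 ≤ X / (16 * L ^ (A + B)) := by
              rw [le_div_iff₀ (by positivity)]
              calc 2 * L ^ 2 * (16 * L ^ (A + B)) = 32 * L ^ (A + B + 2) := by ring
                _ ≤ X := e3
            have a3 : L * (X : ℝ) ^ θ ≤ X / (16 * L ^ (A + B)) := by
              rw [le_div_iff₀ (by positivity)]
              calc L * (X : ℝ) ^ θ * (16 * L ^ (A + B)) = (16 * L ^ (A + B + 1)) * (X : ℝ) ^ θ := by ring
                _ ≤ (X : ℝ) ^ (1 - θ) * (X : ℝ) ^ θ := by gcongr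
                _ = X := by rw [← Real.rpow_add hX0]; simp
            linarith
        _ ≤ X / (4 * L ^ (A + B)) := by
            have : (X : ℝ) / (4 * L ^ (A + B)) = 4 * (X / (16 * L ^ (A + B))) := by field_simp; norm_num
            rw [this]
            have : 0 ≤ X / (16 * L ^ (A + B)) := by positivity
            linarith
    have h6 : (X : ℝ) / (2 * L ^ (A + B)) = X / (4 * L ^ (A + B)) + X / (4 * L ^ (A + B)) := by
      field_simp; norm_num
    linarith
  -- counting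
  have hsub : (Icc 1 X).filter (fun N : ℕ => ∃ y : ℕ → ℕ, (N : ℝ) / Real.log N ^ A < S f mur θ N y) ⊆
      Icc 1 ⌊(X : ℝ) / (2 * L ^ B)⌋₊ ∪ (Icc 1 X).filter (fun N => (X : ℝ) / (4 * L ^ (A + B)) ≤ W N) := by
    intro N hN
    rw [mem_filter] at hN
    rw [mem_union, mem_filter]
    by_cases h : (X : ℝ) / (2 * L ^ B) < N
    · exact Or.inr ⟨hN.1, hlarge N hN.1 h hN.2⟩
    · left
      rw [mem_Icc]
      refine ⟨(mem_Icc.1 hN.1).1, Nat.le_floor (not_lt.1 h)⟩
  have hc1 : ((Icc 1 ⌊(X : ℝ) / (2 * L ^ B)⌋₊).card : ℝ) ≤ X / (2 * L ^ B) := by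
    rw [Nat.card_Icc, Nat.add_sub_cancel]
    exact Nat.floor_le (by positivity)
  have hc2 : (((Icc 1 X).filter (fun N => (X : ℝ) / (4 * L ^ (A + B)) ≤ W N)).card : ℝ) ≤ X / (2 * L ^ B) := by
    have h1 : (((Icc 1 X).filter (fun N => (X : ℝ) / (4 * L ^ (A + B)) ≤ W N)).card : ℝ) * (X / (4 * L ^ (A + B))) ≤
        6 * X ^ 2 * L ^ (K0 + 2) / L ^ U := by
      refine le_trans ?_ hWsum
      calc (((Icc 1 X).filter (fun N => (X : ℝ) / (4 * L ^ (A + B)) ≤ W N)).card : ℝ) * (X / (4 * L ^ (A + B))) =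
          ∑ N ∈ (Icc 1 X).filter (fun N => (X : ℝ) / (4 * L ^ (A + B)) ≤ W N), (X : ℝ) / (4 * L ^ (A + B)) := by
            rw [sum_const, nsmul_eq_mul]
        _ ≤ ∑ N ∈ (Icc 1 X).filter (fun N => (X : ℝ) / (4 * L ^ (A + B)) ≤ W N), W N := by
            apply sum_le_sum
            intro N hN
            exact (mem_filter.1 hN).2
        _ ≤ _ := sum_le_sum_of_subset_of_nonneg (filter_subset _ _) (fun N _ _ => hW0 N)
    have h2 : 6 * X ^ 2 * L ^ (K0 + 2) / L ^ U = (24 * X / L ^ (B + 1)) * (X / (4 * L ^ (A + B))) := by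
      have hp : L ^ U = L ^ (K0 + 2) * L ^ (B + 1) * L ^ (A + B) := by
        rw [← pow_add, ← pow_add]
        congr 1
        omega
      rw [hp]
      have z1 : L ^ (K0 + 2) ≠ 0 := by positivity
      have z2 : L ^ (B + 1) ≠ 0 := by positivity
      have z3 : L ^ (A + B) ≠ 0 := by positivity
      generalize L ^ (K0 + 2) = a at *
      generalize L ^ (B + 1) = b at *
      generalize L ^ (A + B) = c at *
      field_simp
      norm_num
    rw [h2] at h1
    have h3 := le_of_mul_le_mul_right h1 (by positivity)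
    refine h3.trans ?_
    rw [pow_succ, div_le_div_iff₀ (by positivity) (by positivity)]
    have : 0 < X * L ^ B := by positivity
    nlinarith
  calc (((Icc 1 X).filter (fun N : ℕ => ∃ y : ℕ → ℕ, (N : ℝ) / Real.log N ^ A < S f mur θ N y)).card : ℝ) ≤
      ((Icc 1 ⌊(X : ℝ) / (2 * L ^ B)⌋₊ ∪ (Icc 1 X).filter (fun N => (X : ℝ) / (4 * L ^ (A + B)) ≤ W N)).card : ℝ) := by
        exact_mod_cast card_le_card hsub
    _ ≤ ((Icc 1 ⌊(X : ℝ) / (2 * L ^ B)⌋₊).card : ℝ) +
        (((Icc 1 X).filter (fun N => (X : ℝ) / (4 * L ^ (A + B)) ≤ W N)).card : ℝ) := by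
        exact_mod_cast card_union_le _ _
    _ ≤ X / (2 * L ^ B) + X / (2 * L ^ B) := add_le_add hc1 hc2
    _ = _ := by field_simp; norm_num

end Pool.Agent.V11300.DE
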