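import Mathlib
import Pool.Agent.V11300.DE.Core

/-! The diagonal sums, with the weights `μ` and `μ log`, and with the main term subtracted. -/

set_option autoImplicit false

namespace Pool.Agent.V11300.DE

open Finset ArithmeticFunction

/-- Abel's inequality -/
lemma abel (a b : ℕ → ℝ) (hb : ∀ n, 1 ≤ n → b (n + 1) ≤ b n) (hb0 : ∀ n, 0 ≤ b n) (M : ℝ) (y : ℕ)
    (hA : ∀ j, j ≤ y → |∑ n ∈ Icc 1 j, a n| ≤ M) :
    |∑ n ∈ Icc 1 y, a n * b n| ≤ b 1 * M := by
  have hM : 0 ≤ M := (abs_nonneg _).trans (hA 0 (Nat.zero_le _))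
  have h1 : ∀ y : ℕ, 1 ≤ y → ∑ n ∈ Icc 1 y, a n * b n =
      (∑ n ∈ Icc 1 y, a n) * b y + ∑ n ∈ Ico 1 y, (∑ m ∈ Icc 1 n, a m) * (b n - b (n + 1)) := by
    intro y hy
    induction y, hy using Nat.le_induction with
    | base => simp
    | succ y hy ih =>
      rw [sum_Icc_succ_top (by omega), ih, sum_Ico_succ_top hy, sum_Icc_succ_top (by omega)]
      ring
  rcases Nat.eq_zero_or_pos y with h | h
  · rw [h]; simp only [show Icc 1 0 = (∅ : Finset ℕ) by rfl, sum_empty, abs_zero]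
    exact mul_nonneg (hb0 1) hM
  · rw [h1 y h]
    have h2 : ∑ n ∈ Ico 1 y, (b n - b (n + 1)) = b 1 - b y := by
      have : ∀ y : ℕ, 1 ≤ y → ∑ n ∈ Ico 1 y, (b n - b (n + 1)) = b 1 - b y := by
        intro y hy
        induction y, hy using Nat.le_induction with
        | base => simp
        | succ y hy ih => rw [sum_Ico_succ_top hy, ih]; ring
      exact this y h
    calc |(∑ n ∈ Icc 1 y, a n) * b y + ∑ n ∈ Ico 1 y, (∑ m ∈ Icc 1 n, a m) * (b n - b (n + 1))| ≤
        |(∑ n ∈ Icc 1 y, a n) * b y| + |∑ n ∈ Ico 1 y, (∑ m ∈ Icc 1 n, a m) * (b n - b (n + 1))| := abs_add_le _ _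
      _ ≤ M * b y + ∑ n ∈ Ico 1 y, M * (b n - b (n + 1)) := by
          apply add_le_add
          · rw [abs_mul, abs_of_nonneg (hb0 y)]
            exact mul_le_mul_of_nonneg_right (hA y le_rfl) (hb0 y)
          · refine (abs_sum_le_sum_abs _ _).trans ?_
            apply sum_le_sum
            intro n hn
            rw [mem_Ico] at hn
            rw [abs_mul, abs_of_nonneg (by linarith [hb n hn.1] : 0 ≤ b n - b (n + 1))]
            exact mul_le_mul_of_nonneg_right (hA n hn.2.le) (by linarith [hb n hn.1])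
      _ = b 1 * M := by rw [← mul_sum, h2]; ring

/-- `μ(n) log n` -/
noncomputable def mul (n : ℕ) : ℝ := mur n * Real.log n

lemma T_as (f g : ℕ → ℝ) (N q y : ℕ) :
    T f g N q y = ∑ n ∈ Icc 1 y, (if n < N ∧ n ≡ N [MOD q] then f n * g (N - n) else 0) := by
  unfold T
  rw [← sum_filter]
  apply sum_congr _ (fun _ _ => rfl)
  ext n
  simp only [mem_filter, mem_Ico, mem_Icc]
  tauto

lemma T_mul (f : ℕ → ℝ) (N q y : ℕ) (hN : 1 ≤ N) (M : ℝ) (hM : ∀ j, j ≤ y → |T f mur N q j| ≤ M) :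
    |T f mul N q y| ≤ Real.log N * M := by
  have hM0 : 0 ≤ M := (abs_nonneg _).trans (hM 0 (Nat.zero_le _))
  have h1 : T f mul N q y = ∑ n ∈ Icc 1 y, (if n < N ∧ n ≡ N [MOD q] then f n * mur (N - n) else 0) *
      Real.log (N - n : ℕ) := by
    rw [T_as]
    apply sum_congr rfl
    intro n _
    split_ifs
    · unfold mul; ring
    · ring
  rw [h1]
  have h2 := abel (fun n => if n < N ∧ n ≡ N [MOD q] then f n * mur (N - n) else 0)
    (fun n => Real.log (N - n : ℕ)) (by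
      intro n _
      rcases Nat.eq_zero_or_pos (N - (n + 1)) with h | h
      · rw [h]; simp only [Nat.cast_zero, Real.log_zero]
        exact Real.log_natCast_nonneg _
      · exact Real.log_le_log (by exact_mod_cast h) (by exact_mod_cast (by omega : N - (n + 1) ≤ N - n)))
    (fun n => Real.log_natCast_nonneg _) M y (by
      intro j hj
      have := hM j hj
      rw [T_as] at this
      exact this)
  refine h2.trans ?_
  apply mul_le_mul_of_nonneg_right _ hM0
  rcases Nat.eq_zero_or_pos (N - 1) with h | h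
  · rw [h]; simp only [Nat.cast_zero, Real.log_zero]
    exact Real.log_natCast_nonneg _
  · exact Real.log_le_log (by exact_mod_cast h) (by exact_mod_cast (by omega : N - 1 ≤ N))

lemma S_mul (f : ℕ → ℝ) (θ : ℝ) (N : ℕ) (hN : 1 ≤ N) (V : ℝ) (hV : ∀ y, S f mur θ N y ≤ V) (y : ℕ → ℕ) :
    S f mul θ N y ≤ Real.log N * V := by
  have hex : ∀ q : ℕ, ∃ j : ℕ, ∀ i, i ≤ y q → |T f mur N q i| ≤ |T f mur N q j| := by
    intro q
    obtain ⟨j, _, hj⟩ := exists_max_image (Icc 0 (y q)) (fun i => |T f mur N q i|) ⟨0, by simp⟩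
    exact ⟨j, fun i hi => hj i (by simp [hi])⟩
  choose y' hy' using hex
  refine le_trans ?_ (mul_le_mul_of_nonneg_left (hV y') (Real.log_natCast_nonneg N))
  unfold S
  rw [mul_sum]
  apply sum_le_sum
  intro q _
  exact T_mul f N q (y q) hN _ (hy' q)

/-- the diagonal sum with the main term -/
noncomputable def D (f g : ℕ → ℝ) (θ : ℝ) (N : ℕ) (y : ℕ → ℕ) : ℝ :=
  ∑ q ∈ (Icc 1 ⌊(N : ℝ) ^ θ⌋₊).filter (fun q => Nat.Coprime q N),
    |T f g N q (y q) - T f g N 1 (y q) / (Nat.totient q : ℝ)|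

lemma D_le (f g : ℕ → ℝ) (θ : ℝ) (hθ0 : 0 < θ) (hθ : θ < 1) (N : ℕ) (hN : 1 ≤ N) (V : ℝ)
    (hV : ∀ y, S f g θ N y ≤ V) (y : ℕ → ℕ) : D f g θ N y ≤ V * (1 + (1 + Real.log N) ^ 2) := by
  have hNr : (1 : ℝ) ≤ N := by exact_mod_cast hN
  have h0 : (1 : ℝ) ≤ (N : ℝ) ^ θ := Real.one_le_rpow hNr hθ0.le
  have hQ1 : 1 ≤ ⌊(N : ℝ) ^ θ⌋₊ := by
    rw [Nat.le_floor_iff (by linarith)]
    exact_mod_cast h0
  have hT1 : ∀ j, |T f g N 1 j| ≤ V := by
    intro j
    refine le_trans ?_ (hV (fun _ => j))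
    unfold S
    exact single_le_sum (f := fun q => |T f g N q j|) (fun _ _ => abs_nonneg _) (mem_Icc.2 ⟨le_rfl, hQ1⟩)
  have hV0 : 0 ≤ V := (abs_nonneg _).trans (hT1 0)
  have h1 : D f g θ N y ≤ ∑ q ∈ Icc 1 ⌊(N : ℝ) ^ θ⌋₊, (|T f g N q (y q)| + V * (1 / (Nat.totient q : ℝ))) := by
    unfold D
    refine le_trans (sum_le_sum_of_subset_of_nonneg (filter_subset _ _) (fun _ _ _ => abs_nonneg _)) ?_
    apply sum_le_sum
    intro q _
    refine (abs_sub _ _).trans ?_
    apply add_le_add le_rfl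
    rw [abs_div, abs_of_nonneg (Nat.cast_nonneg (Nat.totient q) : (0 : ℝ) ≤ (Nat.totient q : ℝ)), div_eq_mul_one_div]
    exact mul_le_mul_of_nonneg_right (hT1 _) (by positivity)
  refine h1.trans ?_
  rw [sum_add_distrib, ← mul_sum, mul_add, mul_one]
  apply add_le_add (hV y)
  apply mul_le_mul_of_nonneg_left _ hV0
  refine (sum_inv_tot _).trans ?_
  have h2 : Real.log (⌊(N : ℝ) ^ θ⌋₊ : ℝ) ≤ Real.log N := by
    apply Real.log_le_log (by exact_mod_cast hQ1)
    refine (Nat.floor_le (by linarith)).trans ?_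
    calc (N : ℝ) ^ θ ≤ (N : ℝ) ^ (1 : ℝ) := Real.rpow_le_rpow_of_exponent_le hNr hθ.le
      _ = N := Real.rpow_one _
  have h3 : 0 ≤ Real.log (⌊(N : ℝ) ^ θ⌋₊ : ℝ) := Real.log_natCast_nonneg _
  apply pow_le_pow_left₀ (by linarith)
  linarith

/-- the bounds for the integer `N` -/
def Good (f : ℕ → ℝ) (θ : ℝ) (A N : ℕ) : Prop :=
  ∀ g : ℕ → ℝ, (g = mur ∨ g = mul) → ∀ y : ℕ → ℕ,
    S f g θ N y ≤ N / Real.log N ^ A ∧ D f g θ N y ≤ N / Real.log N ^ A

lemma good_of (f : ℕ → ℝ) (θ : ℝ) (hθ0 : 0 < θ) (hθ : θ < 1) (A N : ℕ) (hN : 1 ≤ N) (hl : 3 ≤ Real.log N)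
    (h : ∀ y, S f mur θ N y ≤ N / Real.log N ^ (A + 4)) : Good f θ A N := by
  have hNr : (1 : ℝ) ≤ N := by exact_mod_cast hN
  set ℓ := Real.log N with hℓ
  have hℓ0 : 0 < ℓ := by linarith
  have h1 : ∀ g : ℕ → ℝ, (g = mur ∨ g = mul) → ∀ y : ℕ → ℕ, S f g θ N y ≤ N / ℓ ^ (A + 3) := by
    intro g hg y
    rcases hg with rfl | rfl
    · refine (h y).trans ?_
      apply div_le_div_of_nonneg_left (by linarith) (by positivity)
      exact pow_le_pow_right₀ (by linarith) (by omega)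
    · refine (S_mul f θ N hN _ h y).trans (le_of_eq ?_)
      rw [show A + 4 = (A + 3) + 1 by ring, pow_succ ℓ (A + 3)]
      rw [← hℓ]
      field_simp
  intro g hg y
  refine ⟨(h1 g hg y).trans ?_, (D_le f g θ hθ0 hθ N hN _ (h1 g hg) y).trans ?_⟩
  · apply div_le_div_of_nonneg_left (by linarith) (by positivity)
    exact pow_le_pow_right₀ (by linarith) (by omega)
  · rw [← hℓ]
    have h2 : 1 + (1 + ℓ) ^ 2 ≤ ℓ ^ 3 := by nlinarith [mul_pos hℓ0 hℓ0]
    calc N / ℓ ^ (A + 3) * (1 + (1 + ℓ) ^ 2) ≤ N / ℓ ^ (A + 3) * ℓ ^ 3 := by gcongr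
      _ = N / ℓ ^ A := by rw [pow_add]; field_simp

open Classical in
/-- the uniform version -/
theorem uniform (θ : ℝ) (hθ0 : 0 < θ) (hθ : θ < 1) (A B : ℕ) : ∃ C : ℝ, ∀ f : ℕ → ℝ,
    (∀ n, |f n| ≤ Real.log n) → ∀ X : ℕ, 2 ≤ X →
    (((Icc 1 X).filter (fun N : ℕ => ¬ Good f θ A N)).card : ℝ) ≤ C * (X / Real.log X ^ B) := by
  obtain ⟨X0, hX0⟩ := core θ hθ0 hθ (A + 4) B
  obtain ⟨N1, hN1⟩ := Filter.eventually_atTop.1 (ev_log_ge 3)
  obtain ⟨X1, hX1⟩ := Filter.eventually_atTop.1 (ev_rpow B 1 1 (by norm_num))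
  set X2 := max (max X0 X1) 2 with hX2
  refine ⟨max (N1 + 1) (Real.log X2 ^ B), fun f hf X hX => ?_⟩
  have hXr : (2 : ℝ) ≤ X := by exact_mod_cast hX
  have hL0 : 0 < Real.log X := Real.log_pos (by linarith)
  by_cases hb : X2 ≤ X
  · have hX0' : X0 ≤ X := (le_max_left _ _).trans ((le_max_left _ _).trans hb)
    have hX1' : X1 ≤ X := (le_max_right _ _).trans ((le_max_left _ _).trans hb)
    have h1 := hX0 X hX0' f hf
    have h2 := hX1 X hX1'
    rw [Real.rpow_one, one_mul] at h2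
    have h3 : (1 : ℝ) ≤ X / Real.log X ^ B := by
      rw [le_div_iff₀ (by positivity), one_mul]; exact h2
    have hsub : (Icc 1 X).filter (fun N : ℕ => ¬ Good f θ A N) ⊆
        Icc 1 N1 ∪ (Icc 1 X).filter (fun N : ℕ => ∃ y : ℕ → ℕ, (N : ℝ) / Real.log N ^ (A + 4) < S f mur θ N y) := by
      intro N hN
      rw [mem_filter] at hN
      rw [mem_union, mem_filter]
      by_contra hc
      rw [not_or] at hc
      obtain ⟨c1, c2⟩ := hc
      have hN' := mem_Icc.1 hN.1
      have c3 : N1 ≤ N := by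
        by_contra h
        exact c1 (mem_Icc.2 ⟨hN'.1, by omega⟩)
      apply hN.2
      apply good_of f θ hθ0 hθ A N hN'.1 (hN1 N c3)
      intro y
      by_contra hy
      exact c2 ⟨hN.1, y, not_le.1 hy⟩
    calc (((Icc 1 X).filter (fun N : ℕ => ¬ Good f θ A N)).card : ℝ) ≤
        ((Icc 1 N1 ∪ (Icc 1 X).filter (fun N : ℕ => ∃ y : ℕ → ℕ, (N : ℝ) / Real.log N ^ (A + 4) < S f mur θ N y)).card : ℝ) := by
          exact_mod_cast card_le_card hsub
      _ ≤ ((Icc 1 N1).card : ℝ) +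
        (((Icc 1 X).filter (fun N : ℕ => ∃ y : ℕ → ℕ, (N : ℝ) / Real.log N ^ (A + 4) < S f mur θ N y)).card : ℝ) := by
          exact_mod_cast card_union_le _ _
      _ ≤ N1 + X / Real.log X ^ B := by
          apply add_le_add _ h1
          rw [Nat.card_Icc, Nat.add_sub_cancel]
      _ ≤ (N1 + 1) * (X / Real.log X ^ B) := by
          have : (0 : ℝ) ≤ N1 := Nat.cast_nonneg _
          nlinarith
      _ ≤ _ := by
          apply mul_le_mul_of_nonneg_right (le_max_left _ _) (by positivity)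
  · rw [not_le] at hb
    have h1 : Real.log X ≤ Real.log X2 := Real.log_le_log (by linarith) (by exact_mod_cast hb.le)
    calc (((Icc 1 X).filter (fun N : ℕ => ¬ Good f θ A N)).card : ℝ) ≤ ((Icc 1 X).card : ℝ) := by
          exact_mod_cast card_le_card (filter_subset _ _)
      _ = X := by rw [Nat.card_Icc, Nat.add_sub_cancel]
      _ = Real.log X ^ B * (X / Real.log X ^ B) := by field_simp
      _ ≤ Real.log X2 ^ B * (X / Real.log X ^ B) := by gcongr
      _ ≤ _ := by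
          apply mul_le_mul_of_nonneg_right (le_max_right _ _) (by positivity)

lemma Good.mono {f : ℕ → ℝ} {θ θ' : ℝ} {A A' N : ℕ} (hθ : θ ≤ θ') (hA : A ≤ A') (hN : 3 ≤ N)
    (h : Good f θ' A' N) : Good f θ A N := by
  have hNr : (3 : ℝ) ≤ N := by exact_mod_cast hN
  have hl : 1 ≤ Real.log N := by
    rw [Real.le_log_iff_exp_le (by linarith)]
    have := Real.exp_one_lt_d9
    linarith
  have hb : (N : ℝ) / Real.log N ^ A' ≤ N / Real.log N ^ A := by
    apply div_le_div_of_nonneg_left (by linarith) (by positivity)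
    exact pow_le_pow_right₀ hl hA
  have hfl : ⌊(N : ℝ) ^ θ⌋₊ ≤ ⌊(N : ℝ) ^ θ'⌋₊ :=
    Nat.floor_le_floor (Real.rpow_le_rpow_of_exponent_le (by linarith) hθ)
  intro g hg y
  obtain ⟨h1, h2⟩ := h g hg y
  refine ⟨le_trans ?_ (h1.trans hb), le_trans ?_ (h2.trans hb)⟩
  · unfold S
    apply sum_le_sum_of_subset_of_nonneg (Icc_subset_Icc_right hfl)
    intro _ _ _; exact abs_nonneg _
  · unfold D
    apply sum_le_sum_of_subset_of_nonneg
    · exact filter_subset_filter _ (Icc_subset_Icc_right hfl)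
    · intro _ _ _; exact abs_nonneg _

open Classical in
/-- one exceptional set for all levels and all powers of the logarithm -/
theorem diagonal (f : ℕ → ℝ) (hf : ∀ n, |f n| ≤ Real.log n) : ∃ E : Set ℕ,
    (∀ B : ℕ, ∃ C : ℝ, ∀ X : ℕ, 2 ≤ X → (((Icc 1 X).filter (fun N : ℕ => N ∈ E)).card : ℝ) ≤
      C * (X / Real.log X ^ B)) ∧
    ∀ θ : ℝ, 0 < θ → θ < 1 → ∀ A : ℕ, ∃ N0 : ℕ, ∀ N : ℕ, N0 ≤ N → N ∉ E → Good f θ A N := by
  have hθk : ∀ k : ℕ, 0 < 1 - 1 / ((k : ℝ) + 2) ∧ 1 - 1 / ((k : ℝ) + 2) < 1 := by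
    intro k
    have h1 : 0 < 1 / ((k : ℝ) + 2) := by positivity
    have h2 : 1 / ((k : ℝ) + 2) < 1 := by
      rw [div_lt_one (by positivity)]
      have : (0 : ℝ) ≤ k := Nat.cast_nonneg k
      linarith
    constructor <;> linarith
  have hu := fun (k B : ℕ) => uniform (1 - 1 / ((k : ℝ) + 2)) (hθk k).1 (hθk k).2 k B
  choose c hc using hu
  have hN : ∀ k : ℕ, ∃ n : ℕ, 3 ≤ n ∧ ∀ X : ℕ, n ≤ X → |c k (k + 1)| * 2 ^ k ≤ Real.log X := by
    intro k
    obtain ⟨n, hn⟩ := Filter.eventually_atTop.1 (ev_log_ge (|c k (k + 1)| * 2 ^ k))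
    exact ⟨max n 3, le_max_right _ _, fun X hX => hn X ((le_max_left _ _).trans hX)⟩
  choose n hn3 hn using hN
  set P : ℕ → ℕ → Prop := fun k N => ¬ Good f (1 - 1 / ((k : ℝ) + 2)) k N with hP
  have hl3 : ∀ X : ℕ, 3 ≤ X → 1 ≤ Real.log X := by
    intro X hX
    have hXr : (3 : ℝ) ≤ X := by exact_mod_cast hX
    rw [Real.le_log_iff_exp_le (by linarith)]
    have := Real.exp_one_lt_d9
    linarith
  obtain ⟨E, hE⟩ : ∃ E : Set ℕ, ∀ N, N ∈ E ↔ ∃ k : ℕ, k ≤ N ∧ n k ≤ N ∧ P k N :=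
    ⟨{N | ∃ k : ℕ, k ≤ N ∧ n k ≤ N ∧ P k N}, fun N => Iff.rfl⟩
  refine ⟨E, fun B => ?_, fun θ hθ0 hθ A => ?_⟩
  · refine ⟨∑ k ∈ range B, |c k B| + 2, fun X hX => ?_⟩
    have hXr : (2 : ℝ) ≤ X := by exact_mod_cast hX
    have hL0 : 0 < Real.log X := Real.log_pos (by linarith)
    have hsub : (Icc 1 X).filter (fun N : ℕ => N ∈ E) ⊆
        ((range (X + 1)).filter (fun k => n k ≤ X)).biUnion (fun k => (Icc 1 X).filter (fun N => P k N)) := by
      intro N hN
      rw [mem_filter, hE] at hN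
      obtain ⟨h1, k, h2, h3, h4⟩ := hN
      have h5 := mem_Icc.1 h1
      rw [mem_biUnion]
      exact ⟨k, by rw [mem_filter, mem_range]; omega, by rw [mem_filter]; exact ⟨h1, h4⟩⟩
    have h1 : (((Icc 1 X).filter (fun N : ℕ => N ∈ E)).card : ℝ) ≤
        ∑ k ∈ (range (X + 1)).filter (fun k => n k ≤ X), (((Icc 1 X).filter (fun N => P k N)).card : ℝ) := by
      have := (card_le_card hsub).trans card_biUnion_le
      exact_mod_cast this
    refine h1.trans ?_
    have h2 : ∀ k ∈ (range (X + 1)).filter (fun k => n k ≤ X), (((Icc 1 X).filter (fun N => P k N)).card : ℝ) ≤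
        (if k < B then |c k B| else 0) * (X / Real.log X ^ B) + (1 / 2) ^ k * (X / Real.log X ^ B) := by
      intro k hk
      rw [mem_filter] at hk
      have hX3 : 3 ≤ X := (hn3 k).trans hk.2
      have hl1 := hl3 X hX3
      split_ifs with hkB
      · have h3 := hc k B f hf X hX
        refine h3.trans ?_
        have h4 : c k B * (X / Real.log X ^ B) ≤ |c k B| * (X / Real.log X ^ B) := by
          apply mul_le_mul_of_nonneg_right (le_abs_self _) (by positivity)
        have h5 : 0 ≤ (1 / 2 : ℝ) ^ k * (X / Real.log X ^ B) := by positivity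
        linarith
      · rw [zero_mul, zero_add]
        have h3 := hc k (k + 1) f hf X hX
        refine h3.trans ?_
        have h4 := hn k X hk.2
        have h5 : c k (k + 1) ≤ (1 / 2) ^ k * Real.log X := by
          refine (le_abs_self _).trans ?_
          rw [one_div, inv_pow, inv_mul_eq_div, le_div_iff₀ (by positivity)]
          exact h4
        calc c k (k + 1) * (X / Real.log X ^ (k + 1)) ≤ ((1 / 2) ^ k * Real.log X) * (X / Real.log X ^ (k + 1)) := by
              apply mul_le_mul_of_nonneg_right h5 (by positivity)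
          _ = (1 / 2) ^ k * (X / Real.log X ^ k) := by
              rw [pow_succ (Real.log X)]; field_simp
          _ ≤ _ := by
              apply mul_le_mul_of_nonneg_left _ (by positivity)
              apply div_le_div_of_nonneg_left (by linarith) (by positivity)
              exact pow_le_pow_right₀ hl1 (by omega)
    refine (sum_le_sum h2).trans ?_
    rw [sum_add_distrib, ← sum_mul, ← sum_mul, add_mul]
    apply add_le_add
    · apply mul_le_mul_of_nonneg_right _ (by positivity)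
      rw [← sum_filter]
      apply sum_le_sum_of_subset_of_nonneg
      · intro k hk
        simp only [mem_filter, mem_range] at hk ⊢
        exact hk.2
      · intro _ _ _; exact abs_nonneg _
    · apply mul_le_mul_of_nonneg_right _ (by positivity)
      refine le_trans (sum_le_sum_of_subset_of_nonneg (filter_subset _ _) (fun _ _ _ => by positivity)) ?_
      exact sum_geometric_two_le (X + 1)
  · obtain ⟨k0, hk0⟩ := exists_nat_ge (1 / (1 - θ))
    set k := max A k0 with hk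
    have hkθ : θ ≤ 1 - 1 / ((k : ℝ) + 2) := by
      have h1 : 1 / (1 - θ) ≤ (k : ℝ) + 2 := by
        have : (k0 : ℝ) ≤ k := by exact_mod_cast le_max_right _ _
        linarith
      have h2 : 0 < 1 - θ := by linarith
      have h3 : 1 / ((k : ℝ) + 2) ≤ 1 - θ := by
        rw [div_le_iff₀ (by positivity)]
        rw [div_le_iff₀ h2] at h1
        linarith
      linarith
    refine ⟨max k (n k), fun N hN hNE => ?_⟩
    have h3 : 3 ≤ N := (hn3 k).trans ((le_max_right _ _).trans hN)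
    apply Good.mono hkθ (le_max_left A k0) h3
    by_contra hbad
    exact hNE <| (hE N).2 ⟨k, (le_max_left _ _).trans hN, (le_max_right _ _).trans hN, hbad⟩

end Pool.Agent.V11300.DE
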